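import Pool.Agent.Helper74.FN.Defs
import Pool.Agent.Helper53.WR.Tower

/-!
# FN-N2, FN-N3: the size and the windows of the top set
-/

set_option autoImplicit false

namespace Pool.Agent.Helper87.FN

open Finset
open Pool.Agent.Helper53.WR
open Pool.Agent.Helper48.FB (win crossF Cs Fs)
open Pool.Agent.Helper74.FN

section

variable {a u b w r c : ℕ → ℕ}

lemma laT_add (h : NTow a u b w r c) (k : ℕ) : laT u k + 5 = 4 * u k + 8 * u (k + 1) := by
  have h1 := h.lu k
  unfold laT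
  omega

lemma u_le_a (h : NTow a u b w r c) (k : ℕ) : 2 ^ 42 * u k ≤ a k := by
  have h1 := h.ua k
  have h2 := h.r1 k
  calc 2 ^ 42 * u k = 2 ^ 42 * (u k * 1) := by rw [mul_one]
    _ ≤ 2 ^ 42 * (u k * r k) := by gcongr
    _ ≤ a k := h1

lemma Fs_le_a (h : NTow a u b w r c) (k : ℕ) : Fs u k ≤ 2 ^ 26 * a k := by
  have h1 := laT_add h k
  have h2 := h.uu k
  have h3 := u_le_a h k
  have h4 := h.lu k
  have h5 : laT u k + 1 ≤ 16 * u k := by omega
  calc Fs u k = 2 ^ 64 * (laT u k + 1) := rfl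
    _ ≤ 2 ^ 64 * (16 * u k) := by gcongr
    _ = 2 ^ 26 * (2 ^ 42 * u k) := by ring
    _ ≤ 2 ^ 26 * a k := by gcongr

lemma Fs_le_b (h : NTow a u b w r c) (k : ℕ) : 80 ≤ 2 * b k ∧ Fs u k ≤ 2 ^ (2 * b k - 54) := by
  have h1 := Fs_le_a h k
  have h2 := h.ab k
  have h3 := u_le_a h k
  have h4 := h.lu k
  have ha : 1 ≤ a k := by omega
  have hb : 80 ≤ 2 * b k := by
    by_contra hcon
    push Not at hcon
    have h5 : 2 ^ (2 * b k) < 2 ^ 80 := Nat.pow_lt_pow_right (by norm_num) hcon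
    have h6 : 1 * 2 ^ 80 ≤ a k * 2 ^ 80 := Nat.mul_le_mul_right _ ha
    omega
  refine ⟨hb, ?_⟩
  have h5 : 2 ^ (2 * b k) = 2 ^ (2 * b k - 54) * 2 ^ 54 := by
    rw [← pow_add]
    congr 1
    omega
  rw [h5] at h2
  have h6 : (2 ^ 26 * a k) * 2 ^ 54 ≤ 2 ^ (2 * b k - 54) * 2 ^ 54 := by
    calc (2 ^ 26 * a k) * 2 ^ 54 = a k * 2 ^ 80 := by ring
      _ ≤ _ := h2
  exact h1.trans (Nat.le_of_mul_le_mul_right h6 (by positivity))

lemma a_lt (h : NTow a u b w r c) (k : ℕ) : a k < 2 ^ (Nat.log 2 (a k) + 1) :=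
  Nat.lt_pow_succ_log_self (by norm_num) _

/-- FN-N2 (the size of the top set). -/
theorem top_card (h : NTow a u b w r c) (k : ℕ) {f g : ℕ → ℕ}
    {T : Finset ℕ} {T' B : ℕ → Finset ℕ}
    (hT : NTop (laT u k) (Fs u k) (w k) (c k) f g T T' B) :
    2 ^ (2 * u k + 4 * u (k + 1) - 4) ≤ T.card ∧
      T.card ≤ 2 ^ (b k + 2 * u k + 4 * u (k + 1) - 29) := by
  have hl := laT_add h k
  have h4 := h.lu k
  obtain ⟨hb, hF⟩ := Fs_le_b h k
  constructor
  · have hsub : range (2 ^ laT u k) ⊆ (T ×ˢ T).image (fun p => p.1 + p.2) := by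
      intro n hn
      rw [mem_range] at hn
      rw [mem_image]
      rcases Nat.lt_or_ge n 2 with h2 | h2
      · interval_cases n
        · exact ⟨(0, 0), mem_product.2 ⟨hT.zo.1, hT.zo.1⟩, rfl⟩
        · exact ⟨(0, 1), mem_product.2 ⟨hT.zo.1, hT.zo.2⟩, rfl⟩
      · obtain ⟨x, hx, y, hy, hxy, -⟩ := hT.cov n h2 hn
        exact ⟨(x, y), mem_product.2 ⟨hx, hy⟩, hxy⟩
    have h1 : 2 ^ laT u k ≤ T.card * T.card := by
      have := (card_le_card hsub).trans card_image_le
      rwa [card_range, card_product] at this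
    by_contra hcon
    push Not at hcon
    have h5 : T.card * T.card <
        2 ^ (2 * u k + 4 * u (k + 1) - 4) * 2 ^ (2 * u k + 4 * u (k + 1) - 4) :=
      Nat.mul_self_lt_mul_self hcon
    rw [← pow_add] at h5
    have h6 : 2 ^ (2 * u k + 4 * u (k + 1) - 4 + (2 * u k + 4 * u (k + 1) - 4)) ≤
        2 ^ laT u k := Nat.pow_le_pow_right (by norm_num) (by omega)
    omega
  · exact card_le_pow T (laT u k) (Fs u k) _ hT.lt hT.rep (2 * b k - 54) hF (by omega)

lemma sumD (i : ℕ) : ∑ j ∈ range (2 * i + 1), 2 ^ (j - j / 2) ≤ 4 * 2 ^ i := by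
  induction i with
  | zero => simp
  | succ i ih =>
    have e1 : 2 * (i + 1) + 1 = 2 * i + 1 + 1 + 1 := by ring
    have e2 : 2 * i + 1 - (2 * i + 1) / 2 = i + 1 := by omega
    have e3 : 2 * i + 1 + 1 - (2 * i + 1 + 1) / 2 = i + 1 := by omega
    rw [e1, sum_range_succ, sum_range_succ, e2, e3, pow_succ]
    omega

lemma repF_filter_le (T : Finset ℕ) (P : ℕ → Prop) [DecidablePred P] (n : ℕ) :
    repF (T.filter P) n ≤ repF T n := by
  unfold repF
  exact card_le_card (filter_subset_filter _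
    (product_subset_product (filter_subset _ _) (filter_subset _ _)))

/-- the elements below `2 ^ j` -/
lemma low_card {J F w' c' : ℕ} {f g : ℕ → ℕ} {T : Finset ℕ} {T' B : ℕ → Finset ℕ}
    (hT : NTop J F w' c' f g T T' B) (j : ℕ) (hj : J / 2 ≤ j) :
    (T.filter (fun x => x < 2 ^ j)).card ≤
      (T.filter (fun x => x < 2 ^ (J / 2))).card +
        (2 ^ w' * ∑ i ∈ range j, 2 ^ (i - i / 2) + j * F) := by
  induction j, hj using Nat.le_induction with
  | base => omega
  | succ j hj ih =>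
    have h1 : T.filter (fun x => x < 2 ^ (j + 1)) ⊆
        T.filter (fun x => x < 2 ^ j) ∪ win T (2 ^ j) (2 ^ j) := by
      intro x hx
      rw [mem_filter] at hx
      rw [mem_union, mem_filter, win, mem_filter]
      rw [pow_succ] at hx
      rcases Nat.lt_or_ge x (2 ^ j) with h | h
      · exact Or.inl ⟨hx.1, h⟩
      · exact Or.inr ⟨hx.1, h, by omega⟩
    have h2 := (card_le_card h1).trans (card_union_le _ _)
    have h3 := hT.wn (2 ^ j) (2 ^ j) (Nat.pow_le_pow_right (by norm_num) hj) le_rfl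
    rw [Nat.log_pow (by norm_num)] at h3
    have h4 : (win T (2 ^ j) (2 ^ j)).card ≤ 2 ^ w' * 2 ^ (j - j / 2) + F := by
      have e : 2 ^ j = 2 ^ (j - j / 2) * 2 ^ (j / 2) := by
        rw [← pow_add]
        congr 1
        omega
      have h5 : (win T (2 ^ j) (2 ^ j)).card * 2 ^ (j / 2) ≤
          (2 ^ w' * 2 ^ (j - j / 2) + F) * 2 ^ (j / 2) := by
        refine h3.trans (le_of_eq ?_)
        rw [add_mul]
        congr 1
        rw [mul_assoc, ← e]
      exact Nat.le_of_mul_le_mul_right h5 (by positivity)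
    rw [sum_range_succ]
    calc _ ≤ _ := h2
      _ ≤ ((T.filter (fun x => x < 2 ^ (J / 2))).card +
        (2 ^ w' * ∑ i ∈ range j, 2 ^ (i - i / 2) + j * F)) +
          (2 ^ w' * 2 ^ (j - j / 2) + F) := by omega
      _ = _ := by ring

/-- FN-N3 (the windows of the top set). -/
theorem top_win (h : NTow a u b w r c) (k : ℕ) {f g : ℕ → ℕ}
    {T : Finset ℕ} {T' B : ℕ → Finset ℕ}
    (hT : NTop (laT u k) (Fs u k) (w k) (c k) f g T T' B) (z z' : ℕ) (hz : z ≤ z') :
    (win T z' (2 ^ s0 u k)).card ≤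
      2 ^ (w k + 5 + s0 u k - max (s0 u k) (Nat.log 2 z) / 2) := by
  have hl := laT_add h k
  have h4 := h.lu k
  have huu := h.uu k
  have hs : s0 u k = 8 * u k - 20 := rfl
  have hFa := Fs_le_a h k
  have hal := a_lt h k
  set A := Nat.log 2 (a k) with hA
  have hua := u_le_a h k
  have hF : Fs u k ≤ 2 ^ (A + 27) := by
    calc Fs u k ≤ 2 ^ 26 * a k := hFa
      _ ≤ 2 ^ 26 * 2 ^ (A + 1) := by gcongr
      _ = 2 ^ (A + 27) := by rw [← pow_add]; congr 1; omega
  rcases Nat.lt_or_ge z' (2 ^ s0 u k) with hz' | hz'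
  · -- short
    have hzs : Nat.log 2 z ≤ s0 u k := by
      calc Nat.log 2 z ≤ Nat.log 2 (2 ^ s0 u k) := Nat.log_mono_right (by omega)
        _ = s0 u k := Nat.log_pow (by norm_num) _
    rw [max_eq_left hzs]
    have h1 : win T z' (2 ^ s0 u k) ⊆ T.filter (fun x => x < 2 ^ (s0 u k + 1)) := by
      intro x hx
      rw [win, mem_filter] at hx
      rw [mem_filter, pow_succ]
      exact ⟨hx.1, by omega⟩
    have h2 := (card_le_card h1).trans (low_card hT (s0 u k + 1) (by omega))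
    have h3 : (T.filter (fun x => x < 2 ^ (laT u k / 2))).card ≤ 2 ^ (4 * u k - 10) := by
      refine card_le_pow _ (laT u k / 2) (Fs u k) _ (fun t ht => (mem_filter.1 ht).2)
        (fun n => (repF_filter_le T _ n).trans (hT.rep n)) (A + 27) hF (by omega)
    have h5 : s0 u k + 1 = 2 * (4 * u k - 10) + 1 := by omega
    have h6 : ∑ i ∈ range (s0 u k + 1), 2 ^ (i - i / 2) ≤ 4 * 2 ^ (4 * u k - 10) := by
      rw [h5]
      exact sumD _
    have h7 : (s0 u k + 1) * Fs u k ≤ 2 ^ (4 * u k - 10) := by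
      have h8 : s0 u k + 1 ≤ 2 ^ (A + 1) := by omega
      calc (s0 u k + 1) * Fs u k ≤ 2 ^ (A + 1) * 2 ^ (A + 27) := Nat.mul_le_mul h8 hF
        _ = 2 ^ (A + 1 + (A + 27)) := (pow_add _ _ _).symm
        _ ≤ 2 ^ (4 * u k - 10) := Nat.pow_le_pow_right (by norm_num) (by omega)
    have h9 : 1 ≤ 2 ^ w k := Nat.one_le_two_pow
    have e : 2 ^ (w k + 5 + s0 u k - s0 u k / 2) = 2 ^ w k * (32 * 2 ^ (4 * u k - 10)) := by
      rw [show w k + 5 + s0 u k - s0 u k / 2 = w k + (5 + (4 * u k - 10)) by omega, pow_add,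
        pow_add]
      norm_num
    rw [e]
    calc _ ≤ _ := h2
      _ ≤ 2 ^ (4 * u k - 10) + (2 ^ w k * (4 * 2 ^ (4 * u k - 10)) + 2 ^ (4 * u k - 10)) := by
          gcongr
      _ ≤ 2 ^ w k * 2 ^ (4 * u k - 10) +
          (2 ^ w k * (4 * 2 ^ (4 * u k - 10)) + 2 ^ w k * 2 ^ (4 * u k - 10)) := by
          have : 2 ^ (4 * u k - 10) ≤ 2 ^ w k * 2 ^ (4 * u k - 10) :=
            Nat.le_mul_of_pos_left _ (by positivity)
          omega
      _ = 2 ^ w k * (6 * 2 ^ (4 * u k - 10)) := by ring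
      _ ≤ _ := by gcongr; norm_num
  · -- long
    rcases Nat.lt_or_ge z' (2 ^ laT u k) with hzl | hzl
    · have hz0 : z' ≠ 0 := by
        have : 0 < 2 ^ s0 u k := by positivity
        omega
      have h1 : s0 u k ≤ Nat.log 2 z' := Nat.le_log_of_pow_le (by norm_num) hz'
      have h2 : Nat.log 2 z ≤ Nat.log 2 z' := Nat.log_mono_right hz
      have h3 : Nat.log 2 z' < laT u k := Nat.log_lt_of_lt_pow hz0 hzl
      have h5 := hT.wn z' (2 ^ s0 u k) (le_trans (Nat.pow_le_pow_right (by norm_num) (by omega)) hz')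
        hz'
      set l := Nat.log 2 z' with hlz
      have h6 : 2 ^ w k * 2 ^ s0 u k = 2 ^ (w k + s0 u k - l / 2) * 2 ^ (l / 2) := by
        rw [← pow_add, ← pow_add]
        congr 1
        omega
      rw [h6, ← add_mul] at h5
      have h7 := Nat.le_of_mul_le_mul_right h5 (by positivity)
      have h8 : Fs u k ≤ 2 ^ (w k + s0 u k - l / 2) :=
        hF.trans (Nat.pow_le_pow_right (by norm_num) (by omega))
      have hmax : max (s0 u k) (Nat.log 2 z) ≤ l := max_le h1 h2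
      calc _ ≤ _ := h7
        _ ≤ 2 ^ (w k + s0 u k - l / 2) + 2 ^ (w k + s0 u k - l / 2) := by gcongr
        _ = 2 ^ (w k + s0 u k - l / 2 + 1) := by rw [pow_succ]; ring
        _ ≤ _ := Nat.pow_le_pow_right (by norm_num) (by omega)
    · have : win T z' (2 ^ s0 u k) = ∅ := by
        rw [win, filter_eq_empty_iff]
        intro x hx hx2
        have := hT.lt x hx
        omega
      rw [this, card_empty]
      exact Nat.zero_le _

end

end Pool.Agent.Helper87.FN
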